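import Mathlib

/-!
# Multiquadratic fields: totally real, totally complex
-/

set_option autoImplicit false
set_option linter.all false

open NumberField

namespace Pool.Agent.N975.BK

/-- the elements which are real under an embedding form a field -/
def realField {K : Type} [Field K] [NumberField K] (φ : K →+* ℂ) : IntermediateField ℚ K where
  carrier := {x | (starRingEnd ℂ) (φ x) = φ x}
  mul_mem' := by
    intro a b ha hb
    simp only [Set.mem_setOf_eq] at ha hb ⊢
    rw [map_mul, map_mul, ha, hb]
  one_mem' := by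
    simp only [Set.mem_setOf_eq]
    rw [map_one, map_one]
  add_mem' := by
    intro a b ha hb
    simp only [Set.mem_setOf_eq] at ha hb ⊢
    rw [map_add, map_add, ha, hb]
  zero_mem' := by
    simp only [Set.mem_setOf_eq]
    rw [map_zero, map_zero]
  algebraMap_mem' := by
    intro q
    simp only [Set.mem_setOf_eq]
    have h : φ (algebraMap ℚ K q) = (q : ℂ) := by
      rw [eq_ratCast (algebraMap ℚ K), map_ratCast]
    rw [h, map_ratCast]
  inv_mem' := by
    intro a ha
    have ha' : (starRingEnd ℂ) (φ a) = φ a := ha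
    show (starRingEnd ℂ) (φ a⁻¹) = φ a⁻¹
    rw [map_inv₀, map_inv₀, ha']

theorem real_sqrt {z : ℂ} {d : ℤ} (hd : 0 < d) (h : z ^ 2 = (d : ℂ)) : (starRingEnd ℂ) z = z := by
  have h1 : (z - (Real.sqrt d : ℂ)) * (z + (Real.sqrt d : ℂ)) = 0 := by
    have h2 : ((Real.sqrt d : ℝ) : ℂ) ^ 2 = (d : ℂ) := by
      rw [← Complex.ofReal_pow, Real.sq_sqrt (by exact_mod_cast hd.le)]
      push_cast
      rfl
    linear_combination h - h2
  rcases mul_eq_zero.1 h1 with h3 | h3
  · have : z = (Real.sqrt d : ℂ) := by linear_combination h3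
    rw [this, Complex.conj_ofReal]
  · have : z = -(Real.sqrt d : ℂ) := by linear_combination h3
    rw [this, map_neg, Complex.conj_ofReal]

/-- the field `ℚ(√d_1, …, √d_r)` with positive `d_i` is totally real -/
theorem totReal {r : ℕ} {d : Fin r → ℤ} (hpos : ∀ i, 0 < d i) (K : Type) [Field K] [NumberField K]
    (x : Fin r → K) (hx : ∀ i, x i ^ 2 = (d i : K))
    (hK : IntermediateField.adjoin ℚ (Set.range x) = ⊤) : NumberField.IsTotallyReal K := by
  refine ⟨fun v => ?_⟩
  rw [InfinitePlace.isReal_iff, ComplexEmbedding.isReal_iff]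
  have h1 : IntermediateField.adjoin ℚ (Set.range x) ≤ realField v.embedding := by
    rw [IntermediateField.adjoin_le_iff]
    rintro y ⟨i, rfl⟩
    show (starRingEnd ℂ) (v.embedding (x i)) = v.embedding (x i)
    refine real_sqrt (hpos i) ?_
    rw [← map_pow, hx i, map_intCast]
  rw [hK] at h1
  ext y
  have h2 : y ∈ realField v.embedding := h1 IntermediateField.mem_top
  rw [ComplexEmbedding.conjugate_coe_eq]
  exact h2

/-- the field `ℚ(√D)` with negative `D` is totally complex -/
theorem totComplex {D : ℤ} (hD : D < 0) (K : Type) [Field K] [NumberField K]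
    (x : K) (hx : x ^ 2 = (D : K)) : NumberField.IsTotallyComplex K := by
  refine ⟨fun v => ?_⟩
  rw [← InfinitePlace.not_isReal_iff_isComplex]
  intro hr
  rw [InfinitePlace.isReal_iff, ComplexEmbedding.isReal_iff] at hr
  have h1 : (starRingEnd ℂ) (v.embedding x) = v.embedding x := by
    have := congrArg (fun f : K →+* ℂ => f x) hr
    simpa [ComplexEmbedding.conjugate_coe_eq] using this
  obtain ⟨t, ht⟩ := Complex.conj_eq_iff_real.1 h1
  have h2 : (v.embedding x) ^ 2 = (D : ℂ) := by
    rw [← map_pow, hx, map_intCast]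
  rw [ht] at h2
  have h3 : t ^ 2 = (D : ℝ) := by exact_mod_cast h2
  have h4 : (D : ℝ) < 0 := by exact_mod_cast hD
  nlinarith [sq_nonneg t]

end Pool.Agent.N975.BK
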